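import Pool.Agent.helper90.FL.Spec

set_option autoImplicit false

namespace Pool.Agent.helper90.FL

open Finset Polynomial
open scoped Classical

theorem POS_cut {V E : Type} (s t : E → V) {A' A : Finset E} {S : Set V} (hA : A' ⊆ A)
    (h : ∀ e ∈ A, e ∉ A' → (s e ∈ S ↔ t e ∈ S)) : cut s t A' S = cut s t A S := by
  ext e
  simp only [cut, mem_filter]
  constructor
  · rintro ⟨h1, h2⟩
    exact ⟨hA h1, h2⟩
  · rintro ⟨h1, h2⟩
    refine ⟨?_, h2⟩
    by_contra h3
    exact h2 (h e h1 h3)

theorem POS (h : CIR_stmt) : POS_stmt := by
  intro V E s t hrel w hSC x hwx h1x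
  have key : ∀ n : ℕ, ∀ A B : Finset E, A.card ≤ n → 0 ≤ Pv s t A B x ∧
      ((∀ S, Cl s t B S → (cut s t A S).card ≠ 1) → 0 < Pv s t A B x) := by
    intro n
    induction n with
    | zero =>
      intro A B hA
      have hA0 : A = ∅ := by
        apply card_eq_zero.1
        omega
      subst hA0
      rw [hrel.emp]
      exact ⟨zero_le_one, fun _ => zero_lt_one⟩
    | succ n ih =>
      intro A B hA
      by_cases hA0 : A = ∅
      · subst hA0
        rw [hrel.emp]
        exact ⟨zero_le_one, fun _ => zero_lt_one⟩
      have hn : ∀ A B : Finset E, A.card ≤ n → 0 ≤ Pv s t A B x := fun A B hAB => (ih A B hAB).1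
      by_cases hc1 : ∃ S, Cl s t B S ∧ (cut s t A S).card = 1
      · obtain ⟨S, hS, hc⟩ := hc1
        obtain ⟨e, he⟩ := card_eq_one.1 hc
        rw [hrel.cut0 A B S e x hS he]
        exact ⟨le_refl _, fun h' => absurd hc (h' S hS)⟩
      have hne : ∀ S, Cl s t B S → (cut s t A S).card ≠ 1 := fun S hS hc => hc1 ⟨S, hS, hc⟩
      suffices hpos : 0 < Pv s t A B x from ⟨hpos.le, fun _ => hpos⟩
      by_cases hl : ∃ e ∈ A, Lp s t B e
      · obtain ⟨e, he, hLp⟩ := hl
        rw [hrel.loop A B e x he hLp]
        have hcard : (A.erase e).card ≤ n := by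
          rw [card_erase_of_mem he]
          omega
        have hp := (ih (A.erase e) B hcard).2 (fun S hS => by
          rw [POS_cut s t (erase_subset e A) (S := S) (fun f hf hf' => by
            have hfe : f = e := by
              by_contra hne'
              exact hf' (mem_erase.2 ⟨hne', hf⟩)
            rw [hfe]
            exact hLp S hS)]
          exact hne S hS)
        exact mul_pos (by linarith) hp
      by_cases hc2 : ∃ S, Cl s t B S ∧ (cut s t A S).card = 2
      · obtain ⟨S, hS, hc⟩ := hc2
        obtain ⟨e, f, hef, hcut⟩ := card_eq_two.1 hc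
        have hfc : f ∈ cut s t A S := by rw [hcut]; simp
        have hfA : f ∈ A := (mem_filter.1 hfc).1
        have hfs : ¬ (s f ∈ S ↔ t f ∈ S) := (mem_filter.1 hfc).2
        have hfl : ¬ Lp s t B f := fun h' => hfs (h' S hS)
        have hcut' : cut s t (A.erase f) S = {e} := by
          ext g
          simp only [cut, mem_filter, mem_erase, mem_singleton]
          constructor
          · rintro ⟨⟨h1, h2⟩, h3⟩
            have : g ∈ cut s t A S := mem_filter.2 ⟨h2, h3⟩
            rw [hcut] at this
            simp only [mem_insert, mem_singleton] at this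
            rcases this with h4 | h4
            · exact h4
            · exact absurd h4 h1
          · intro hg
            have : g ∈ cut s t A S := by rw [hcut, hg]; simp
            obtain ⟨h2, h3⟩ := mem_filter.1 this
            exact ⟨⟨by rw [hg]; exact hef, h2⟩, h3⟩
        rw [hrel.nonloop A B f x hfA hfl, hrel.cut0 (A.erase f) B S e x hS hcut', sub_zero]
        have hcard : (A.erase f).card ≤ n := by
          rw [card_erase_of_mem hfA]
          omega
        apply (ih (A.erase f) (insert f B) hcard).2
        intro S' hS'
        have hB : Cl s t B S' := fun g hg => hS' g (mem_insert_of_mem hg)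
        rw [POS_cut s t (erase_subset f A) (S := S') (fun g hg hg' => by
          have hgf : g = f := by
            by_contra hne'
            exact hg' (mem_erase.2 ⟨hne', hg⟩)
          rw [hgf]
          exact hS' f (mem_insert_self f B))]
        exact hne S' hB
      · have hA1 : A.Nonempty := nonempty_iff_ne_empty.2 hA0
        obtain ⟨C, hCA, hCir, hCw⟩ := hSC A B hA1 (fun e he hLp => hl ⟨e, he, hLp⟩)
          (fun S hS => ⟨hne S hS, fun hc => hc2 ⟨S, hS, hc⟩⟩)
        have hk := h V E s t hrel x n hn C A B hCA hA hCir
        obtain ⟨c, hc⟩ := hCir.1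
        have hcard : (A \ C).card ≤ n := by
          have h1 : (A \ C).card < A.card :=
            card_lt_card ⟨sdiff_subset, fun hsub => (mem_sdiff.1 (hsub (hCA hc))).2 hc⟩
          omega
        have hp := (ih (A \ C) (B ∪ C) hcard).2 (fun S hS => by
          have hB : Cl s t B S := fun g hg => hS g (mem_union_left _ hg)
          rw [POS_cut s t (sdiff_subset : A \ C ⊆ A) (S := S) (fun g hg hg' => by
            have hgC : g ∈ C := by
              by_contra hne'
              exact hg' (mem_sdiff.2 ⟨hg, hne'⟩)
            exact hS g (mem_union_right _ hgC))]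
          exact hne S hB)
        have hxc : 0 < x - C.card := by
          have : (C.card : ℝ) ≤ (w : ℝ) := by exact_mod_cast hCw
          linarith
        exact lt_of_lt_of_le (mul_pos hxc hp) hk
  intro A B
  exact key A.card A B le_rfl

end Pool.Agent.helper90.FL
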